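import Pool.Agent.Lib.MP_12eca1_ag.P.Fin

/-!
If a rationally independent tuple `z` of `n` complex numbers has, for arbitrarily large `q`,
`n - r` independent integral linear forms of height at most `q` and value at most
`exp (-q ^ (T + 2))`, and `n > r`, `n > 4 r T`, then the numbers `exp (z i)` generate a
field of transcendence degree at least `T + 1`.
-/

namespace Pool.Agent.Retired.MP_12eca1_ag.ManySmallForms

theorem result (T r n : ℕ) (hr : r < n) (hn : 4 * r * T < n) (z : Fin n → ℂ)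
    (hz : LinearIndependent ℚ z)
    (happ : ∀ N : ℕ, ∃ q : ℕ, N ≤ q ∧ ∃ M : Fin (n - r) → Fin n → ℤ, LinearIndependent ℤ M ∧
      ∀ k, (∀ i, |M k i| ≤ (q : ℤ)) ∧
        ‖∑ i, (M k i : ℂ) * z i‖ ≤ Real.exp (-(q : ℝ) ^ (T + 2))) :
    ((T + 1 : ℕ) : Cardinal) ≤ Algebra.trdeg ℚ
      (IntermediateField.adjoin ℚ (Set.range fun i => Complex.exp (z i))) :=
  Pool.Agent.Lib.MP_12eca1_ag.P.mainForms T r n hr hn z hz happ

end Pool.Agent.Retired.MP_12eca1_ag.ManySmallForms
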